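import Pool.Agent.Lib.MP_aa9b81_an.Mg.G029

/-!
# Rotated sites, part P7d: the commutator of a Clifford operator with a function of the charges
-/

open scoped ENNReal Topology ZeroAtInfty
open Function Filter Set

noncomputable section

namespace Pool.Agent.Lib.MP_aa9b81_an.Rc

open Cut Hs

variable {Γ C I : Type} [Group Γ] [MulAction Γ C] [MulAction Γ I] [DecidableEq C]
  [DecidableEq I]

variable {𝔉 : Fibr Γ C I} (β : Bas 𝔉)

private theorem P7d_ring {R : Type} [Ring R] (D κ G Q g g₁ : R) (h1 : D * G = G * D)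
    (h2 : κ * G - G * κ = (κ * Q - Q * κ) * g) (h3 : Q * g = g₁) (h4 : g * Q = g₁)
    (h5 : κ * g = g * κ) (h6 : D * g₁ = g₁ * D) (h7 : D * κ = κ * D) (h8 : D * Q = Q * D) :
    D * κ * G - G * (D * κ) = D * ((1 - Q) * κ * g₁) - (g₁ * κ * (1 - Q)) * D := by
  have e1 : D * κ * G - G * (D * κ) = D * (κ * G - G * κ) := by
    rw [mul_sub, ← mul_assoc G D κ, ← h1]
    simp only [mul_assoc]
  have e2 : (1 - Q) * g = g * (1 - Q) := by
    rw [sub_mul, mul_sub, h3, h4, one_mul, mul_one]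
  have e3 : Q * κ * (1 - Q) * g = g₁ * κ * (1 - Q) := by
    calc Q * κ * (1 - Q) * g = Q * κ * ((1 - Q) * g) := by simp only [mul_assoc]
      _ = Q * (κ * g) * (1 - Q) := by rw [e2]; simp only [mul_assoc]
      _ = (Q * g) * κ * (1 - Q) := by rw [h5]; simp only [mul_assoc]
      _ = g₁ * κ * (1 - Q) := by rw [h3]
  have e4 : D * (1 - Q) = (1 - Q) * D := by
    rw [mul_sub, sub_mul, h8, mul_one, one_mul]
  have e5 : D * (g₁ * κ * (1 - Q)) = (g₁ * κ * (1 - Q)) * D := by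
    calc D * (g₁ * κ * (1 - Q)) = (D * g₁) * κ * (1 - Q) := by simp only [mul_assoc]
      _ = g₁ * (D * κ) * (1 - Q) := by rw [h6]; simp only [mul_assoc]
      _ = g₁ * κ * (D * (1 - Q)) := by rw [h7]; simp only [mul_assoc]
      _ = (g₁ * κ * (1 - Q)) * D := by rw [e4]; simp only [mul_assoc]
  rw [e1, h2, comm_split Q κ, sub_mul, e3, mul_assoc ((1 - Q) * κ) Q g, h3, mul_sub, e5]

private theorem P7d_Q (i : I) : (β.G fun G => if i ∈ G then (1 : ℂ) else 0) = 𝔉.Qi i := by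
  rw [← β.G_ind i]
  apply congrArg β.G
  funext G
  by_cases hi : i ∈ G
  · rw [if_pos hi, if_pos hi]
  · rw [if_neg hi, if_neg hi]

omit [Group Γ] [MulAction Γ C] [MulAction Γ I] [DecidableEq C] in
private theorem P7d_df_bdd {f : Finset I → ℂ} {M : ℝ} (hf : ∀ G, ‖f G‖ ≤ M) (i : I)
    (G : Finset I) : ‖df f i G‖ ≤ M + M := by
  unfold df
  exact (norm_sub_le _ _).trans (add_le_add (hf _) (hf _))

omit [Group Γ] [MulAction Γ C] [MulAction Γ I] [DecidableEq C] in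
private theorem P7d_df_bdd' {f : Finset I → ℂ} {M : ℝ} (hM : 0 ≤ M) (hf : ∀ G, ‖f G‖ ≤ M) (i : I)
    (G : Finset I) : ‖(if i ∈ G then df f i G else 0 : ℂ)‖ ≤ M + M := by
  split_ifs
  · exact P7d_df_bdd hf i G
  · rw [norm_zero]
    exact add_nonneg hM hM

private theorem P7d_kap_rows (𝔉 : Fibr Γ C I) (e : C ↪ ℕ) (i : I) (b : Bs C) :
    ∃ A : Finset (Bs C), ∀ b' ∉ A, ker (kap 𝔉 e i) b b' = 0 := by
  classical
  refine ⟨b.F.image fun c => tog c b, fun b' hb' => ?_⟩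
  unfold kap
  rw [ker_Cl e (CB_kap 𝔉 i)]
  refine Finset.sum_eq_zero fun c hc => ?_
  rw [if_neg (c := b' = tog c b), mul_zero, mul_zero]
  rintro rfl
  exact hb' (Finset.mem_image.2 ⟨c, hc, rfl⟩)

private theorem P7d_kap_g (e : C ↪ ℕ) {f : Finset I → ℂ} {M : ℝ} (hM : 0 ≤ M)
    (hf : ∀ G, ‖f G‖ ≤ M) (i : I) : kap 𝔉 e i * β.G (df f i) = β.G (df f i) * kap 𝔉 e i := by
  refine β.G_comm (P7d_kap_rows 𝔉 e i) ({i}ᶜ : Set I) (fun j hj => kap_comm_Qi 𝔉 e ?_)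
    (add_nonneg hM hM) (P7d_df_bdd hf i) ?_
  · intro h
    exact hj (by rw [h]; rfl)
  · intro G G' h
    have h1 : insert i G = insert i G' := by
      ext j
      rw [Finset.mem_insert, Finset.mem_insert]
      by_cases hj : j = i
      · simp only [hj, true_or]
      · have h2 := h j (by rw [Set.mem_compl_iff, Set.mem_singleton_iff]; exact hj)
        simp only [hj, false_or]
        exact h2
    have h3 : G.erase i = G'.erase i := by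
      ext j
      rw [Finset.mem_erase, Finset.mem_erase]
      by_cases hj : j = i
      · simp only [hj, ne_eq, not_true_eq_false, false_and]
      · have h2 := h j (by rw [Set.mem_compl_iff, Set.mem_singleton_iff]; exact hj)
        simp only [ne_eq, hj, not_false_eq_true, true_and]
        exact h2
    unfold df
    rw [h1, h3]

private theorem P7d_alp_bdd {a : Finset C → C → ℝ} {A : ℝ} (ha : CB a A) (i : I) (b : Bs C) :
    ‖((alp 𝔉 a i b.F : ℝ) : ℂ)‖ ≤ A := by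
  rw [Complex.norm_real, Real.norm_eq_abs]
  have h := sum_alp_sq_le (𝔉 := 𝔉) ha {i} b.F
  rw [Finset.sum_singleton] at h
  exact abs_le_of_sq_le_sq h ha.nonneg

private theorem P7d_alp_kap (e : C ↪ ℕ) {a : Finset C → C → ℝ} {A : ℝ} (ha : CB a A) (i : I) :
    (dia fun b : Bs C => ((alp 𝔉 a i b.F : ℝ) : ℂ)) * kap 𝔉 e i =
      kap 𝔉 e i * dia fun b : Bs C => ((alp 𝔉 a i b.F : ℝ) : ℂ) := by
  have hd : ∀ (ξ : L2 (Bs C)) (b : Bs C),
      (dia (fun b : Bs C => ((alp 𝔉 a i b.F : ℝ) : ℂ)) ξ : Bs C → ℂ) b =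
        ((alp 𝔉 a i b.F : ℝ) : ℂ) * (ξ : Bs C → ℂ) b := fun ξ b =>
    dia_apply ha.nonneg (fun b => P7d_alp_bdd ha i b) ξ b
  refine ContinuousLinearMap.ext fun ξ => ?_
  ext b
  have e1 : (((dia fun b : Bs C => ((alp 𝔉 a i b.F : ℝ) : ℂ)) * kap 𝔉 e i) ξ : Bs C → ℂ) b =
      (dia (fun b : Bs C => ((alp 𝔉 a i b.F : ℝ) : ℂ)) (kap 𝔉 e i ξ) : Bs C → ℂ) b := rfl
  have e2 : ((kap 𝔉 e i * dia fun b : Bs C => ((alp 𝔉 a i b.F : ℝ) : ℂ)) ξ : Bs C → ℂ) b =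
      (kap 𝔉 e i (dia (fun b : Bs C => ((alp 𝔉 a i b.F : ℝ) : ℂ)) ξ) : Bs C → ℂ) b := rfl
  rw [e1, e2, hd]
  unfold kap
  rw [Cl_apply e (CB_kap 𝔉 i), Cl_apply e (CB_kap 𝔉 i)]
  unfold clF
  rw [Finset.mul_sum]
  refine Finset.sum_congr rfl fun c hc => ?_
  rw [hd, (tog_of_mem hc).1]
  ring

private theorem P7d_key (e : C ↪ ℕ) {a : Finset C → C → ℝ} {A : ℝ}
    (ha : CB a A) (hc : Col 𝔉 a) {f : Finset I → ℂ} {M : ℝ} (hM : 0 ≤ M)
    (hf : ∀ G, ‖f G‖ ≤ M) (i : I) :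
    dia (fun b : Bs C => ((alp 𝔉 a i b.F : ℝ) : ℂ)) * kap 𝔉 e i * β.G f -
      β.G f * (dia (fun b : Bs C => ((alp 𝔉 a i b.F : ℝ) : ℂ)) * kap 𝔉 e i) =
    dia (fun b : Bs C => ((alp 𝔉 a i b.F : ℝ) : ℂ)) *
      ((1 - 𝔉.Qi i) * kap 𝔉 e i * β.G (fun G => if i ∈ G then df f i G else 0)) -
    (β.G (fun G => if i ∈ G then df f i G else 0) * kap 𝔉 e i * (1 - 𝔉.Qi i)) *
      dia (fun b : Bs C => ((alp 𝔉 a i b.F : ℝ) : ℂ)) := by
  have hb1 : ∀ G : Finset I, ‖(if i ∈ G then (1 : ℂ) else 0)‖ ≤ 1 := by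
    intro G
    split_ifs <;> simp
  refine P7d_ring _ _ _ _ (β.G (df f i)) _ ?_ ?_ ?_ ?_ ?_ ?_ ?_ ?_
  · exact alp_comm_G β ha hc i hM hf
  · exact kap_comm_G β e i hM hf
  · rw [← P7d_Q β i, β.G_mul_G zero_le_one hb1 (add_nonneg hM hM) (P7d_df_bdd hf i)]
    apply congrArg β.G
    funext G
    split_ifs
    · rw [one_mul]
    · rw [zero_mul]
  · rw [← P7d_Q β i, β.G_mul_G (add_nonneg hM hM) (P7d_df_bdd hf i) zero_le_one hb1]
    apply congrArg β.G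
    funext G
    split_ifs
    · rw [mul_one]
    · rw [mul_zero]
  · exact P7d_kap_g β e hM hf i
  · exact alp_comm_G β ha hc i (add_nonneg hM hM) (P7d_df_bdd' hM hf i)
  · exact P7d_alp_kap e ha i
  · rw [← P7d_Q β i]
    exact alp_comm_G β ha hc i zero_le_one hb1

private theorem P7d_inner_one_sub (i : I) (ξ η : L2 (Bs C)) :
    inner ℂ ((1 - 𝔉.Qi i) ξ) η = inner ℂ ξ ((1 - 𝔉.Qi i) η) := by
  have e1 : (1 - 𝔉.Qi i) ξ = ξ - 𝔉.Qi i ξ := rfl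
  have e2 : (1 - 𝔉.Qi i) η = η - 𝔉.Qi i η := rfl
  rw [e1, e2, inner_sub_left, inner_sub_right, 𝔉.inner_Qi]

private theorem P7d_inner_kap (e : C ↪ ℕ) (i : I) (ξ η : L2 (Bs C)) :
    inner ℂ (kap 𝔉 e i ξ) η = inner ℂ ξ (kap 𝔉 e i η) := by
  unfold kap
  exact inner_Cl e (CB_kap 𝔉 i) ξ η

omit [Group Γ] [MulAction Γ C] [MulAction Γ I] [DecidableEq C] in
private theorem P7d_conj (f : Finset I → ℂ) (i : I) :
    (fun G : Finset I => (starRingEnd ℂ) (if i ∈ G then df f i G else 0)) =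
      fun G => if i ∈ G then df (fun G => (starRingEnd ℂ) (f G)) i G else 0 := by
  funext G
  split_ifs
  · unfold df
    rw [map_sub]
  · rw [map_zero]

/-- Finitely many fibres. PROOF: write `Q = Qi i`, `κ = kap i`, `D` for the multiplication by `alp i`, `g = G (df f i)`, `g₁ = G ([i ∈ G] df f i) = g Q = Q g`
(`G_mul_G`, `G_ind`). By `Cl_cutK`, `alp_comm_G`, `kap_comm_G`, `comm_split` the commutator is
`∑_i D ((1 - Q) κ Q - Q κ (1 - Q)) g = ∑_i D ((1 - Q) κ g₁) - ∑_i (g₁ κ (1 - Q)) D`. For the second sum: `g` commutes with `Q`, `κ`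
(`G_comm` with `J = {i}ᶜ`, `kap_comm_Qi`, `Qi_comm`), so `Q κ (1 - Q) g = g₁ κ (1 - Q)`; `D` commutes with `g₁` and `Q` (`alp_comm_G`, `G_ind`), and with
`κ` (`kap` does not change `F`). First sum: `norm_sum_alp_le` with `X_i = (1 - Q) κ g₁` (`norm_kap_le'`, `sum_norm_df_le`). Second sum:
`norm_sum_alp_le'` with `Y_i = g₁ κ (1 - Q)`, `Z_i = (1 - Q) κ g₁*` (`inner_G`, `inner_Cl`, `inner_Qi`), `g₁* = G ([i ∈ G] conj (df f i)) =
G ([i ∈ G] df (conj f) i)`, `sum_norm_df_le` for `conj f`. -/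
theorem norm_comm_cutK_le (e : C ↪ ℕ) (K : Finset I) {a : Finset C → C → ℝ} {A : ℝ}
    (ha : CB a A) (hc : Col 𝔉 a) {f : Finset I → ℂ} {M N : ℝ} (hM : 0 ≤ M)
    (hf : ∀ G, ‖f G‖ ≤ M) (hN0 : 0 ≤ N)
    (hN : ∀ (G : Finset I) (i : I), i ∉ G → (G.card + 1 : ℝ) * ‖f (insert i G) - f G‖ ^ 2 ≤ N ^ 2) :
    ‖Cl e (cutK 𝔉 K a) * β.G f - β.G f * Cl e (cutK 𝔉 K a)‖ ≤ 2 * A * N := by
  have h0 : Cl e (cutK 𝔉 K a) * β.G f - β.G f * Cl e (cutK 𝔉 K a) =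
      (∑ i ∈ K, dia (fun b : Bs C => ((alp 𝔉 a i b.F : ℝ) : ℂ)) *
        ((1 - 𝔉.Qi i) * kap 𝔉 e i * β.G (fun G => if i ∈ G then df f i G else 0))) -
      ∑ i ∈ K, (β.G (fun G => if i ∈ G then df f i G else 0) * kap 𝔉 e i * (1 - 𝔉.Qi i)) *
        dia (fun b : Bs C => ((alp 𝔉 a i b.F : ℝ) : ℂ)) := by
    rw [Cl_cutK e K ha hc, Finset.sum_mul, Finset.mul_sum, ← Finset.sum_sub_distrib,
      ← Finset.sum_sub_distrib]
    exact Finset.sum_congr rfl fun i _ => P7d_key β e ha hc hM hf i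
  have h1 : ‖∑ i ∈ K, dia (fun b : Bs C => ((alp 𝔉 a i b.F : ℝ) : ℂ)) *
        ((1 - 𝔉.Qi i) * kap 𝔉 e i * β.G (fun G => if i ∈ G then df f i G else 0))‖ ≤ A * N := by
    refine norm_sum_alp_le ha hN0 K
      (fun i => (1 - 𝔉.Qi i) * kap 𝔉 e i * β.G (fun G => if i ∈ G then df f i G else 0)) ?_
    intro ξ
    refine le_trans ?_ (sum_norm_df_le β hM hf hN K ξ)
    refine Finset.sum_le_sum fun i _ => ?_
    exact pow_le_pow_left₀ (norm_nonneg _) (norm_kap_le' 𝔉 β.ne e i _) 2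
  have hN' : ∀ (G : Finset I) (i : I), i ∉ G → (G.card + 1 : ℝ) *
      ‖(starRingEnd ℂ) (f (insert i G)) - (starRingEnd ℂ) (f G)‖ ^ 2 ≤ N ^ 2 := by
    intro G i hi
    rw [← map_sub, RCLike.norm_conj]
    exact hN G i hi
  have h2 : ‖∑ i ∈ K, (β.G (fun G => if i ∈ G then df f i G else 0) * kap 𝔉 e i *
        (1 - 𝔉.Qi i)) * dia (fun b : Bs C => ((alp 𝔉 a i b.F : ℝ) : ℂ))‖ ≤ A * N := by
    refine norm_sum_alp_le' ha hN0 K
      (fun i => β.G (fun G => if i ∈ G then df f i G else 0) * kap 𝔉 e i * (1 - 𝔉.Qi i))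
      (fun i => (1 - 𝔉.Qi i) * kap 𝔉 e i *
        β.G (fun G => (starRingEnd ℂ) (if i ∈ G then df f i G else 0))) ?_ ?_
    · intro i ξ η
      have e1 : (β.G (fun G => if i ∈ G then df f i G else 0) * kap 𝔉 e i * (1 - 𝔉.Qi i)) ξ =
        β.G (fun G => if i ∈ G then df f i G else 0) (kap 𝔉 e i ((1 - 𝔉.Qi i) ξ)) := rfl
      have e2 : ((1 - 𝔉.Qi i) * kap 𝔉 e i *
        β.G (fun G => (starRingEnd ℂ) (if i ∈ G then df f i G else 0))) η = (1 - 𝔉.Qi i)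
          (kap 𝔉 e i (β.G (fun G => (starRingEnd ℂ) (if i ∈ G then df f i G else 0)) η)) := rfl
      beta_reduce
      rw [e1, e2, β.inner_G (add_nonneg hM hM) (P7d_df_bdd' hM hf i), P7d_inner_kap,
        P7d_inner_one_sub]
    · intro ξ
      refine le_trans ?_ (sum_norm_df_le β (f := fun G => (starRingEnd ℂ) (f G)) hM
        (fun G => by rw [RCLike.norm_conj]; exact hf G) hN' K ξ)
      refine Finset.sum_le_sum fun i _ => ?_
      rw [← P7d_conj f i]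
      exact pow_le_pow_left₀ (norm_nonneg _) (norm_kap_le' 𝔉 β.ne e i _) 2
  rw [h0]
  refine (norm_sub_le _ _).trans ?_
  linarith

/-- PROOF: for a vector `ξ` and a finite set `s` of labels let `K` be the union of the sites of the labels in `s`. At `b ∈ s` the commutators with `Cl e a` and
`Cl e (cutK K a)` agree: `(Cl e a ζ) b = (Cl e (cutK K a) ζ) b` for all `ζ` and all `b` with `sites b.F ⊆ K` (`Cl_apply`), and `(G f ζ) b` involves only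
the values of `ζ` at the `b'` with `Cc b b'`, which have the same sites (`G_apply_congr`, `Cc.sites`). So
`∑_{b ∈ s} ‖([Cl e a, G f] ξ) b‖² ≤ ‖[Cl e (cutK K a), G f] ξ‖² ≤ (2 A N ‖ξ‖)²` (`norm_comm_cutK_le`); let `s` grow
(`lp.norm_sq_eq..`, `tsum_le_of_sum_le`; `ContinuousLinearMap.opNorm_le_bound`). -/
theorem norm_comm_le (e : C ↪ ℕ) {a : Finset C → C → ℝ} {A : ℝ}
    (ha : CB a A) (hc : Col 𝔉 a) {f : Finset I → ℂ} {M N : ℝ} (hM : 0 ≤ M)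
    (hf : ∀ G, ‖f G‖ ≤ M) (hN0 : 0 ≤ N)
    (hN : ∀ (G : Finset I) (i : I), i ∉ G → (G.card + 1 : ℝ) * ‖f (insert i G) - f G‖ ^ 2 ≤ N ^ 2) :
    ‖Cl e a * β.G f - β.G f * Cl e a‖ ≤ 2 * A * N := by
  classical
  have hB : 0 ≤ 2 * A * N := mul_nonneg (mul_nonneg (by norm_num) ha.nonneg) hN0
  -- the two operators agree at labels with sites in `K`
  have hcl : ∀ (K : Finset I) (ζ : L2 (Bs C)) (b : Bs C), 𝔉.sites b.F ⊆ K →
      (Cl e a ζ : Bs C → ℂ) b = (Cl e (cutK 𝔉 K a) ζ : Bs C → ℂ) b := by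
    intro K ζ b hb
    rw [Cl_apply e ha, Cl_apply e (CB_cutK 𝔉 K ha)]
    unfold clF
    refine Finset.sum_congr rfl fun c hc' => ?_
    have h1 : 𝔉.p c ∈ K := by
      apply hb
      rw [𝔉.mem_sites]
      exact ⟨c, Finset.mem_inter.2 ⟨hc', (𝔉.mem_fib _ _).2 rfl⟩⟩
    have h2 : cutK 𝔉 K a b.F c = a b.F c := by
      unfold cutK
      rw [if_pos h1]
    rw [h2]
  refine ContinuousLinearMap.opNorm_le_bound _ hB fun ξ => ?_
  set T : BL (Bs C) := Cl e a * β.G f - β.G f * Cl e a with hT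
  have hkey : ∀ s : Finset (Bs C), ∑ b ∈ s, ‖(T ξ : Bs C → ℂ) b‖ ^ 2 ≤ (2 * A * N * ‖ξ‖) ^ 2 := by
    intro s
    set K : Finset I := s.biUnion fun b => 𝔉.sites b.F with hK
    set TK : BL (Bs C) := Cl e (cutK 𝔉 K a) * β.G f - β.G f * Cl e (cutK 𝔉 K a) with hTK
    have h1 : ∀ b ∈ s, (T ξ : Bs C → ℂ) b = (TK ξ : Bs C → ℂ) b := by
      intro b hb
      have hbK : 𝔉.sites b.F ⊆ K := Finset.subset_biUnion_of_mem (fun b => 𝔉.sites b.F) hb
      have e1 : (T ξ : Bs C → ℂ) b = (Cl e a (β.G f ξ) : Bs C → ℂ) b -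
        (β.G f (Cl e a ξ) : Bs C → ℂ) b := rfl
      have e2 : (TK ξ : Bs C → ℂ) b = (Cl e (cutK 𝔉 K a) (β.G f ξ) : Bs C → ℂ) b -
        (β.G f (Cl e (cutK 𝔉 K a) ξ) : Bs C → ℂ) b := rfl
      rw [e1, e2, hcl K _ b hbK]
      congr 1
      refine β.G_apply_congr f hM hf fun b' hb' => ?_
      apply hcl
      rw [hb'.sites]
      exact hbK
    have h2 : ‖TK ξ‖ ≤ 2 * A * N * ‖ξ‖ := by
      refine (TK.le_opNorm ξ).trans ?_
      exact mul_le_mul_of_nonneg_right (norm_comm_cutK_le β e K ha hc hM hf hN0 hN) (norm_nonneg ξ)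
    calc ∑ b ∈ s, ‖(T ξ : Bs C → ℂ) b‖ ^ 2 = ∑ b ∈ s, ‖(TK ξ : Bs C → ℂ) b‖ ^ 2 :=
          Finset.sum_congr rfl fun b hb => by rw [h1 b hb]
      _ ≤ ∑' b, ‖(TK ξ : Bs C → ℂ) b‖ ^ 2 :=
          (summable_L2 (TK ξ)).sum_le_tsum s fun b _ => by positivity
      _ = ‖TK ξ‖ ^ 2 := (norm_sq_L2 (TK ξ)).symm
      _ ≤ (2 * A * N * ‖ξ‖) ^ 2 := pow_le_pow_left₀ (norm_nonneg _) h2 2
  have h3 : ‖T ξ‖ ^ 2 ≤ (2 * A * N * ‖ξ‖) ^ 2 := by
    rw [norm_sq_L2]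
    exact (summable_L2 (T ξ)).tsum_le_of_sum_le hkey
  exact (sq_le_sq₀ (norm_nonneg _) (mul_nonneg hB (norm_nonneg ξ))).1 h3

end Pool.Agent.Lib.MP_aa9b81_an.Rc
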